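import Mathlib

/-!
Polynomials over the field with two elements as natural numbers in binary notation.
-/

set_option autoImplicit false

open Polynomial

namespace Pool.Agent.Q263.RD

/-- the polynomial whose coefficients are the binary digits of `a` -/
noncomputable def Pn (a : ℕ) : (ZMod 2)[X] :=
  ∑ i ∈ Finset.range a.size, if a.testBit i then X ^ i else 0

lemma coeff_Pn (a i : ℕ) : (Pn a).coeff i = if a.testBit i then 1 else 0 := by
  unfold Pn
  rw [finsetSum_coeff]
  have h1 : ∀ j ∈ Finset.range a.size, (if a.testBit j then (X : (ZMod 2)[X]) ^ j else 0).coeff i =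
      if j = i then (if a.testBit i then 1 else 0) else 0 := by
    intro j _
    by_cases hij : j = i
    · subst hij
      by_cases hb : a.testBit j
      · simp [hb]
      · simp [hb]
    · rw [if_neg hij]
      by_cases hb : a.testBit j
      · rw [if_pos hb, coeff_X_pow, if_neg (fun h => hij h.symm)]
      · rw [if_neg hb, coeff_zero]
  rw [Finset.sum_congr rfl h1, Finset.sum_ite_eq' (Finset.range a.size) i]
  by_cases hi : i ∈ Finset.range a.size
  · rw [if_pos hi]
  · rw [if_neg hi]
    rw [Finset.mem_range] at hi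
    have h2 : a.testBit i = false := by
      apply Nat.testBit_lt_two_pow
      exact Nat.lt_of_lt_of_le (Nat.lt_size_self a) (Nat.pow_le_pow_right (by norm_num) (by omega))
    rw [h2]
    simp

lemma Pn_zero : Pn 0 = 0 := by
  ext i
  rw [coeff_Pn]
  simp

lemma Pn_one : Pn 1 = 1 := by
  ext i
  rw [coeff_Pn, coeff_one]
  by_cases h : i = 0
  · subst h
    simp
  · rw [Nat.testBit_one_eq_true_iff_self_eq_zero.not.2 h |> Bool.eq_false_iff.2]
    simp [h]

lemma Pn_xor (a b : ℕ) : Pn (a ^^^ b) = Pn a + Pn b := by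
  ext i
  rw [coeff_add, coeff_Pn, coeff_Pn, coeff_Pn, Nat.testBit_xor]
  cases a.testBit i <;> cases b.testBit i <;> simp
  exact (CharTwo.add_self_eq_zero (1 : ZMod 2)).symm

lemma Pn_shift (a k : ℕ) : Pn (a * 2 ^ k) = X ^ k * Pn a := by
  ext i
  rw [coeff_X_pow_mul', coeff_Pn, coeff_Pn, Nat.testBit_mul_two_pow]
  by_cases h : k ≤ i
  · simp [h]
  · simp [h]

/-- two halves -/
lemma Pn_split (a h : ℕ) : Pn a = Pn (a % 2 ^ h) + X ^ h * Pn (a / 2 ^ h) := by
  ext i
  rw [coeff_add, coeff_X_pow_mul', coeff_Pn, coeff_Pn, coeff_Pn, Nat.testBit_mod_two_pow,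
    Nat.testBit_div_two_pow]
  by_cases h1 : h ≤ i
  · have h2 : ¬ i < h := by omega
    have h3 : h + (i - h) = i := by omega
    have h3' : i - h + h = i := by omega
    simp [h1, h2, h3']
  · have h2 : i < h := by omega
    simp [h1, h2]

/-- the product -/
def cm : ℕ → ℕ → ℕ → ℕ
  | 0, a, b => a * b
  | k + 1, a, b => cm k (a % 2 ^ 2 ^ k) b ^^^ cm k (a / 2 ^ 2 ^ k) b * 2 ^ 2 ^ k

lemma half_lt {k a : ℕ} (h : a < 2 ^ 2 ^ (k + 1)) : a / 2 ^ 2 ^ k < 2 ^ 2 ^ k := by
  rw [Nat.div_lt_iff_lt_mul (by positivity), ← pow_add, ← two_mul, ← pow_succ']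
  exact h

lemma cm_spec (k : ℕ) : ∀ a b : ℕ, a < 2 ^ 2 ^ k → Pn (cm k a b) = Pn a * Pn b := by
  induction k with
  | zero =>
    intro a b ha
    have h1 : a = 0 ∨ a = 1 := by
      rw [pow_zero, pow_one] at ha
      omega
    unfold cm
    rcases h1 with rfl | rfl
    · rw [zero_mul, Pn_zero, zero_mul]
    · rw [one_mul, Pn_one, one_mul]
  | succ k ih =>
    intro a b ha
    unfold cm
    rw [Pn_xor, Pn_shift, ih _ _ (Nat.mod_lt _ (by positivity)), ih _ _ (half_lt ha),
      Pn_split a (2 ^ k)]
    ring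

/-- the number of ones -/
def pc : ℕ → ℕ → ℕ
  | 0, a => a
  | k + 1, a => pc k (a % 2 ^ 2 ^ k) + pc k (a / 2 ^ 2 ^ k)

lemma supp_Pn (a : ℕ) : (Pn a).support = (Finset.range a.size).filter (fun i => a.testBit i) := by
  ext i
  rw [mem_support_iff, coeff_Pn, Finset.mem_filter, Finset.mem_range]
  constructor
  · intro h
    have h1 : a.testBit i := by
      by_contra h2
      rw [if_neg h2] at h
      exact h rfl
    refine ⟨?_, h1⟩
    by_contra h2
    push Not at h2
    have h3 : a.testBit i = false := Nat.testBit_lt_two_pow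
      (Nat.lt_of_lt_of_le (Nat.lt_size_self a) (Nat.pow_le_pow_right (by norm_num) h2))
    rw [h3] at h1
    exact absurd h1 (by simp)
  · rintro ⟨-, h⟩
    rw [if_pos h]
    exact one_ne_zero

lemma card_split (a h : ℕ) : (Pn a).support.card =
    (Pn (a % 2 ^ h)).support.card + (Pn (a / 2 ^ h)).support.card := by
  classical
  have h1 : (Pn a).support = (Pn (a % 2 ^ h)).support ∪
      ((Pn (a / 2 ^ h)).support.map ⟨fun i => i + h, add_left_injective h⟩) := by
    ext i
    rw [Finset.mem_union, Finset.mem_map, mem_support_iff, mem_support_iff, coeff_Pn, coeff_Pn,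
      Nat.testBit_mod_two_pow]
    simp only [mem_support_iff, coeff_Pn, Nat.testBit_div_two_pow, Function.Embedding.coeFn_mk]
    constructor
    · intro h2
      have h3 : a.testBit i := by
        by_contra h4
        rw [if_neg h4] at h2
        exact h2 rfl
      by_cases h4 : i < h
      · left
        simp [h4, h3]
      · right
        refine ⟨i - h, ?_, by omega⟩
        have h5 : i - h + h = i := by omega
        rw [h5, if_pos h3]
        exact one_ne_zero
    · rintro (h2 | ⟨j, h2, rfl⟩)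
      · by_cases h3 : a.testBit i
        · rw [if_pos h3]
          exact one_ne_zero
        · simp [h3] at h2
      · exact h2
  rw [h1, Finset.card_union_of_disjoint, Finset.card_map]
  rw [Finset.disjoint_left]
  intro i h2 h3
  rw [Finset.mem_map] at h3
  obtain ⟨j, -, h4⟩ := h3
  rw [mem_support_iff, coeff_Pn, Nat.testBit_mod_two_pow] at h2
  simp only [Function.Embedding.coeFn_mk] at h4
  have h5 : ¬ i < h := by omega
  simp [h5] at h2

lemma pc_spec (k : ℕ) : ∀ a : ℕ, a < 2 ^ 2 ^ k → (Pn a).support.card = pc k a := by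
  induction k with
  | zero =>
    intro a ha
    have h1 : a = 0 ∨ a = 1 := by
      rw [pow_zero, pow_one] at ha
      omega
    unfold pc
    rcases h1 with rfl | rfl
    · rw [Pn_zero, support_zero, Finset.card_empty]
    · rw [Pn_one, ← C_1, support_C one_ne_zero, Finset.card_singleton]
  | succ k ih =>
    intro a ha
    unfold pc
    rw [card_split a (2 ^ k), ih _ (Nat.mod_lt _ (by positivity)), ih _ (half_lt ha)]

/-- the substitution of `X ^ m` -/
def sp (m : ℕ) : ℕ → ℕ → ℕ
  | 0, a => a
  | k + 1, a => sp m k (a % 2 ^ 2 ^ k) ^^^ sp m k (a / 2 ^ 2 ^ k) * 2 ^ (m * 2 ^ k)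

lemma sp_spec (m k : ℕ) : ∀ a : ℕ, a < 2 ^ 2 ^ k → Pn (sp m k a) = expand (ZMod 2) m (Pn a) := by
  induction k with
  | zero =>
    intro a ha
    have h1 : a = 0 ∨ a = 1 := by
      rw [pow_zero, pow_one] at ha
      omega
    unfold sp
    rcases h1 with rfl | rfl
    · rw [Pn_zero, map_zero]
    · rw [Pn_one, map_one]
  | succ k ih =>
    intro a ha
    unfold sp
    rw [Pn_xor, Pn_shift, ih _ (Nat.mod_lt _ (by positivity)), ih _ (half_lt ha),
      Pn_split a (2 ^ k), map_add, map_mul, map_pow, expand_X, ← pow_mul]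

end Pool.Agent.Q263.RD
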