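import Mathlib
import Pool.Agent.Q263.RD.Bits

/-!
The certificate.
-/

set_option autoImplicit false

open Polynomial

namespace Pool.Agent.Q263.RD

/-- the binary digits of the power series `1 / (1 + x + x ^ 64 + x ^ 66)` in the period `4161` -/
def cN : ℕ := 0xaaaaaaaaaaaaaaaacccccccccccccccceeeeeeeeeeeeeeeef0f0f0f0f0f0f0f0fafafafafafafafafcfcfcfcfcfcfcfcfefefefefefefefeff00ff00ff00ff00ffaaffaaffaaffaaffccffccffccffccffeeffeeffeeffeefff0fff0fff0fff0fffafffafffafffafffcfffcfffcfffcfffefffefffefffeffff0000ffff0000ffffaaaaffffaaaaffffccccffffccccffffeeeeffffeeeefffff0f0fffff0f0fffffafafffffafafffffcfcfffffcfcfffffefefffffefeffffff00ffffff00ffffffaaffffffaaffffffccffffffccffffffeeffffffeefffffff0fffffff0fffffffafffffffafffffffcfffffffcfffffffefffffffeffffffff00000000ffffffffaaaaaaaaffffffffccccccccffffffffeeeeeeeefffffffff0f0f0f0fffffffffafafafafffffffffcfcfcfcfffffffffefefefeffffffffff00ff00ffffffffffaaffaaffffffffffccffccffffffffffeeffeefffffffffff0fff0fffffffffffafffafffffffffffcfffcfffffffffffefffeffffffffffff0000ffffffffffffaaaaffffffffffffccccffffffffffffeeeefffffffffffff0f0fffffffffffffafafffffffffffffcfcfffffffffffffefeffffffffffffff00ffffffffffffffaaffffffffffffffccffffffffffffffeefffffffffffffff0fffffffffffffffafffffffffffffffcfffffffffffffffeffffffffffffffff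

/-- `1 + x + x ^ 64 + x ^ 66` -/
def gN : ℕ := 1 + 2 + 2 ^ 64 + 2 ^ 66

/-- the factors of degree `18` -/
def aN : ℕ := 516815
def bN : ℕ := 432699
def eN : ℕ := 358641

/-- the cofactor `(1 + x) ^ 15 (1 + x + x ^ 9) a e ^ 4` -/
def kN : ℕ := cm 4 65535 (cm 4 515 (cm 5 aN (sp 4 5 eN)))

/-- the quotient of `1 + x ^ 66576` by the polynomial -/
def fsN : ℕ := cm 7 kN (sp 16 13 cN)

theorem g_fac : cm 1 3 (cm 2 7 (cm 4 515 (cm 5 aN (cm 5 bN eN)))) = gN := by decide +kernel

theorem gc : cm 7 gN cN = 1 + 2 ^ 4161 := by decide +kernel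

theorem weight : pc 17 fsN = 49932 := by decide +kernel

end Pool.Agent.Q263.RD
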