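import Mathlib
import Pool.Agent.Q263.RD.Data

/-!
Reciprocal densities of binary polynomials.
-/

set_option autoImplicit false

open Polynomial Finset

namespace Pool.Agent.Q263.RD

/-- the order of `f` -/
noncomputable def ord (f : (ZMod 2)[X]) : ℕ := sInf {D : ℕ | 1 ≤ D ∧ f ∣ 1 + X ^ D}

/-- the reciprocal density of `f` -/
noncomputable def gamma (f : (ZMod 2)[X]) : ℚ :=
  (((1 + X ^ ord f) / f).support.card : ℚ) / ord f

lemma neg_one_eq : (-1 : (ZMod 2)[X]) = 1 := CharTwo.neg_eq 1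

lemma add_one_sub (k : ℕ) : (X ^ k - 1 : (ZMod 2)[X]) = 1 + X ^ k := by
  rw [sub_eq_add_neg, neg_one_eq, add_comm]

lemma supp_shift (p : (ZMod 2)[X]) (k : ℕ) :
    (X ^ k * p).support = p.support.map ⟨fun i => i + k, add_left_injective k⟩ := by
  ext i
  rw [mem_support_iff, coeff_X_pow_mul', Finset.mem_map]
  simp only [mem_support_iff, Function.Embedding.coeFn_mk]
  constructor
  · intro h
    by_cases h1 : k ≤ i
    · rw [if_pos h1] at h
      exact ⟨i - k, h, by omega⟩
    · rw [if_neg h1] at h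
      exact absurd rfl h
  · rintro ⟨j, hj, rfl⟩
    rw [if_pos (by omega)]
    have : j + k - k = j := by omega
    rw [this]
    exact hj

lemma card_geom (g : (ZMod 2)[X]) (D : ℕ) (hD : g.natDegree < D) (q : ℕ) :
    (g * ∑ j ∈ range q, (X ^ D) ^ j).support.card = q * g.support.card ∧
      ∀ i, D * q ≤ i → (g * ∑ j ∈ range q, (X ^ D) ^ j).coeff i = 0 := by
  induction q with
  | zero => simp
  | succ q ih =>
    obtain ⟨h1, h2⟩ := ih
    have e : g * ∑ j ∈ range (q + 1), (X ^ D) ^ j =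
        g * ∑ j ∈ range q, (X ^ D) ^ j + X ^ (D * q) * g := by
      rw [Finset.sum_range_succ, mul_add, ← pow_mul]
      ring
    rw [e]
    set H := g * ∑ j ∈ range q, (X ^ D) ^ j with hH
    constructor
    · have hdisj : Disjoint H.support (X ^ (D * q) * g).support := by
        rw [Finset.disjoint_left]
        intro i hi hi'
        rw [mem_support_iff] at hi hi'
        rw [coeff_X_pow_mul'] at hi'
        by_cases h3 : D * q ≤ i
        · exact hi (h2 i h3)
        · rw [if_neg h3] at hi'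
          exact hi' rfl
      have hs : (H + X ^ (D * q) * g).support = H.support ∪ (X ^ (D * q) * g).support := by
        ext i
        rw [Finset.mem_union, mem_support_iff, mem_support_iff, mem_support_iff, coeff_add]
        constructor
        · intro h3
          by_contra h4
          push Not at h4
          rw [h4.1, h4.2, add_zero] at h3
          exact h3 rfl
        · rintro (h3 | h3)
          · have h4 : i ∉ (X ^ (D * q) * g).support :=
              Finset.disjoint_left.1 hdisj (mem_support_iff.2 h3)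
            rw [notMem_support_iff] at h4
            rw [h4, add_zero]
            exact h3
          · have h4 : i ∉ H.support :=
              Finset.disjoint_right.1 hdisj (mem_support_iff.2 h3)
            rw [notMem_support_iff] at h4
            rw [h4, zero_add]
            exact h3
      rw [hs, Finset.card_union_of_disjoint hdisj, h1, supp_shift, Finset.card_map]
      ring
    · intro i hi
      have h3 : D * q ≤ i := le_trans (Nat.mul_le_mul_left D (Nat.le_succ q)) hi
      rw [coeff_add, h2 i h3, zero_add, coeff_X_pow_mul', if_pos h3]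
      apply coeff_eq_zero_of_natDegree_lt
      rw [Nat.mul_succ] at hi
      omega

/-- **The density is computed from any multiple of the order.** -/
theorem gamma_eq (f G : (ZMod 2)[X]) (N : ℕ) (hf : 1 ≤ f.natDegree) (hN : 1 ≤ N)
    (h : f * G = 1 + X ^ N) : gamma f = (G.support.card : ℚ) / N := by
  have hne : {D : ℕ | 1 ≤ D ∧ f ∣ 1 + X ^ D}.Nonempty := ⟨N, hN, G, h.symm⟩
  have hmem : 1 ≤ ord f ∧ f ∣ 1 + X ^ ord f := Nat.sInf_mem hne
  have hmin : ∀ m, 1 ≤ m → f ∣ 1 + X ^ m → ord f ≤ m := fun m h1 h2 => Nat.sInf_le ⟨h1, h2⟩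
  have hf0 : f ≠ 0 := by
    rintro rfl
    rw [natDegree_zero] at hf
    omega
  unfold gamma
  generalize ord f = D at hmem hmin ⊢
  obtain ⟨hD, g, hg⟩ := hmem
  have hdiv : (1 + X ^ D) / f = g := by
    rw [hg]
    exact mul_div_cancel_left₀ g hf0
  rw [hdiv]
  -- the order divides `N`
  have hr : N % D = 0 := by
    by_contra hr
    have h1 : f ∣ 1 + X ^ (N % D) := by
      have e1 : (1 + X ^ N : (ZMod 2)[X]) =
          X ^ (N % D) * ((X ^ D) ^ (N / D) - 1 ^ (N / D)) + (1 + X ^ (N % D)) := by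
        nth_rewrite 1 [← Nat.mod_add_div N D]
        rw [pow_add, pow_mul, one_pow]
        ring
      have h2 : f ∣ X ^ (N % D) * ((X ^ D) ^ (N / D) - 1 ^ (N / D)) := by
        apply Dvd.dvd.mul_left
        refine dvd_trans ?_ (sub_dvd_pow_sub_pow (X ^ D : (ZMod 2)[X]) 1 (N / D))
        rw [add_one_sub]
        exact ⟨g, hg⟩
      have h3 : f ∣ 1 + X ^ N := ⟨G, h.symm⟩
      rw [e1] at h3
      exact (dvd_add_right h2).1 h3
    have h2 := hmin (N % D) (by omega) h1
    have h3 := Nat.mod_lt N (show 0 < D by omega)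
    omega
  obtain ⟨q, rfl⟩ := Nat.dvd_of_mod_eq_zero hr
  have hq : 1 ≤ q := by
    rcases Nat.eq_zero_or_pos q with h0 | h0
    · rw [h0, mul_zero] at hN
      omega
    · exact h0
  have hG : G = g * ∑ j ∈ range q, (X ^ D) ^ j := by
    have h1 : f * G = f * (g * ∑ j ∈ range q, (X ^ D) ^ j) := by
      rw [h, ← mul_assoc, ← hg, ← add_one_sub, ← add_one_sub, mul_comm (X ^ D - 1), geom_sum_mul, pow_mul]
    exact mul_left_cancel₀ hf0 h1
  have hdeg : g.natDegree < D := by
    have hg0 : g ≠ 0 := by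
      rintro rfl
      rw [mul_zero] at hg
      have := congrArg (fun p : (ZMod 2)[X] => p.coeff 0) hg
      simp [coeff_one, coeff_X_pow, show (0 : ℕ) ≠ D by omega] at this
    have h1 : (1 + X ^ D : (ZMod 2)[X]).natDegree = D := by
      rw [add_comm, ← C_1]
      exact natDegree_X_pow_add_C
    rw [hg, natDegree_mul hf0 hg0] at h1
    omega
  rw [hG, (card_geom g D hdeg q).1]
  have hq0 : (q : ℚ) ≠ 0 := by exact_mod_cast (by omega : q ≠ 0)
  push_cast
  rw [mul_comm (D : ℚ) q, mul_div_mul_left _ _ hq0]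

/-- the polynomial -/
noncomputable def fP : (ZMod 2)[X] :=
  Pn 3 * Pn 7 ^ 16 * Pn 515 ^ 15 * Pn aN ^ 15 * Pn bN ^ 16 * Pn eN ^ 12

lemma g_prod : Pn gN = Pn 3 * Pn 7 * Pn 515 * Pn aN * Pn bN * Pn eN := by
  rw [← g_fac, cm_spec 1 _ _ (by norm_num), cm_spec 2 _ _ (by norm_num), cm_spec 4 _ _ (by norm_num),
    cm_spec 5 _ _ (by unfold aN; norm_num), cm_spec 5 _ _ (by unfold bN; norm_num)]
  ring

lemma Pn_one_add (n : ℕ) (hn : 1 ≤ n) : Pn (1 + 2 ^ n) = 1 + X ^ n := by
  have h2 : 1 < 2 ^ n := Nat.one_lt_two_pow (by omega)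
  have h3 : (1 + 2 ^ n) % 2 ^ n = 1 := by
    rw [Nat.add_mod_right]
    exact Nat.mod_eq_of_lt h2
  have h4 : (1 + 2 ^ n) / 2 ^ n = 1 := by
    rw [Nat.add_div_right _ (by omega), Nat.div_eq_of_lt h2]
  rw [Pn_split (1 + 2 ^ n) n, h3, h4, Pn_one, mul_one]

lemma gN_lt : gN < 2 ^ 2 ^ 7 := by decide +kernel

lemma g_c : Pn gN * Pn cN = 1 + X ^ 4161 := by
  have h1 := (cm_spec 7 gN cN gN_lt).symm
  have h2 : Pn (cm 7 gN cN) = Pn (1 + 2 ^ 4161) := congrArg Pn gc
  exact h1.trans (h2.trans (Pn_one_add 4161 (by norm_num)))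

lemma k_prod : Pn kN = Pn 3 ^ 15 * Pn 515 * Pn aN * Pn eN ^ 4 := by
  have h15 : Pn 65535 = Pn 3 ^ 15 := by
    have e1 : cm 1 3 3 = 5 := by decide +kernel
    have e2 : cm 2 5 5 = 17 := by decide +kernel
    have e3 : cm 3 17 17 = 257 := by decide +kernel
    have e4 : cm 4 257 (cm 3 17 (cm 2 5 3)) = 65535 := by decide +kernel
    have f1 := cm_spec 1 3 3 (by norm_num)
    have f2 := cm_spec 2 5 5 (by norm_num)
    have f3 := cm_spec 3 17 17 (by norm_num)
    rw [e1] at f1
    rw [e2] at f2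
    rw [e3] at f3
    rw [← e4, cm_spec 4 _ _ (by norm_num), cm_spec 3 _ _ (by norm_num), cm_spec 2 _ _ (by norm_num),
      f3, f2, f1]
    ring
  have he : Pn (sp 4 5 eN) = Pn eN ^ 4 := by
    rw [sp_spec 4 5 _ (by unfold eN; norm_num)]
    have h2 : ∀ p : (ZMod 2)[X], expand (ZMod 2) 4 p = p ^ 4 := by
      intro p
      have := ZMod.expand_card (p := 2) p
      rw [show (4 : ℕ) = 2 * 2 by norm_num, expand_mul, ZMod.expand_card, ZMod.expand_card,
        ← pow_mul]
    exact h2 _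
  unfold kN
  rw [cm_spec 4 _ _ (by norm_num), cm_spec 4 _ _ (by norm_num),
    cm_spec 5 _ _ (by unfold aN; norm_num), h15, he]
  ring

lemma kN_lt : kN < 2 ^ 2 ^ 7 := by decide +kernel

lemma cN_lt : cN < 2 ^ 2 ^ 13 := by decide +kernel

lemma expand16 (p : (ZMod 2)[X]) : expand (ZMod 2) 16 p = p ^ 16 := by
  rw [show (16 : ℕ) = 2 * (2 * (2 * 2)) by norm_num, expand_mul, expand_mul, expand_mul,
    ZMod.expand_card, ZMod.expand_card, ZMod.expand_card, ZMod.expand_card, ← pow_mul, ← pow_mul,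
    ← pow_mul]

lemma fs_prod1 : Pn (cm 7 kN (sp 16 13 cN)) = Pn kN * Pn (sp 16 13 cN) :=
  cm_spec 7 kN (sp 16 13 cN) kN_lt

lemma fs_prod2 : Pn fsN = Pn (cm 7 kN (sp 16 13 cN)) := by
  unfold fsN
  rfl

lemma fs_prod3 : Pn (sp 16 13 cN) = expand (ZMod 2) 16 (Pn cN) := sp_spec 16 13 cN cN_lt

lemma fs_prod : Pn fsN = Pn kN * Pn cN ^ 16 :=
  (fs_prod2.trans (fs_prod1.trans (congrArg (fun q => Pn kN * q) fs_prod3))).trans
    (congrArg (fun q => Pn kN * q) (expand16 (Pn cN)))

theorem alg {g c f K F : (ZMod 2)[X]} {D N : ℕ} (hgc : g * c = 1 + X ^ D) (hfK : f * K = g ^ 16)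
    (hF : F = K * c ^ 16) (hN : N = D * 16) : f * F = 1 + X ^ N := by
  have h1 : f * F = (g * c) ^ 16 := by
    rw [hF, mul_pow, ← hfK]
    ring
  rw [h1, hgc, ← expand16, map_add, map_one, map_pow, expand_X, ← pow_mul, hN, mul_comm]

theorem f_fs : fP * Pn fsN = 1 + X ^ 66576 := by
  refine alg g_c (K := Pn kN) ?_ fs_prod (by norm_num)
  rw [k_prod, g_prod]
  unfold fP
  ring

theorem card_fs : (Pn fsN).support.card = 49932 := by
  rw [pc_spec 17 fsN (by decide +kernel), weight]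

theorem fP_coeff : fP.coeff 0 = 1 := by
  have h : ∀ a : ℕ, a % 2 = 1 → (Pn a).coeff 0 = 1 := by
    intro a ha
    rw [coeff_Pn, Nat.testBit_zero]
    simp [ha]
  unfold fP
  simp only [coeff_zero_eq_eval_zero, eval_mul, eval_pow]
  simp only [← coeff_zero_eq_eval_zero]
  rw [h 3 (by norm_num), h 7 (by norm_num), h 515 (by norm_num), h aN (by unfold aN; norm_num),
    h bN (by unfold bN; norm_num), h eN (by unfold eN; norm_num)]
  norm_num

theorem fP_deg : 1 ≤ fP.natDegree := by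
  by_contra hcon
  have h0 : fP.natDegree = 0 := by omega
  have h1 : fP = 1 := by
    rw [eq_C_of_natDegree_eq_zero h0, fP_coeff, C_1]
  have h2 : Pn 3 ∣ 1 := by
    rw [← h1]
    unfold fP
    exact Dvd.dvd.mul_right (Dvd.dvd.mul_right (Dvd.dvd.mul_right (Dvd.dvd.mul_right
      (Dvd.dvd.mul_right (dvd_refl _) _) _) _) _) _
  have h3 : Pn 3 = 1 + X := by
    have e : (3 : ℕ) = 1 ^^^ (1 * 2 ^ 1) := by decide
    rw [e, Pn_xor, Pn_shift, Pn_one, mul_one, pow_one]
  rw [h3] at h2
  obtain ⟨q, hq⟩ := h2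
  have h4 := congrArg (eval 1) hq
  rw [eval_one, eval_mul, eval_add, eval_one, eval_X, CharTwo.add_self_eq_zero, zero_mul] at h4
  exact one_ne_zero h4

/-- **`3/4` is a reciprocal density.** -/
theorem main : fP.coeff 0 = 1 ∧ 1 ≤ fP.natDegree ∧ gamma fP = 3 / 4 := by
  refine ⟨fP_coeff, fP_deg, ?_⟩
  rw [gamma_eq fP (Pn fsN) 66576 fP_deg (by norm_num) f_fs, card_fs]
  norm_num

end Pool.Agent.Q263.RD
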